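import Pool.Agent.N110.CC.K2
import Pool.Agent.Y191.UJac
import Pool.Agent.Y172.Dim2

/-!
The formula of Hurwitz for finite morphisms in codimension one, with equality.
-/

set_option autoImplicit false
set_option linter.unusedSectionVars false
set_option linter.overlappingInstances false

open FF Module Pool.Agent.W602.GT Pool.Agent.Y172 Pool.Agent.R887 Pool.Agent.W619.PQ
open Pool.Agent.N110 Pool.Agent.N110.PA Pool.Agent.N110.NV Pool.Agent.N492.PA
open Pool.Agent.N110.CC

namespace Pool.Agent.U201.MR

section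

variable {K K' : Type} [Field K] [Algebra ℂ K] [Field K'] [Algebra ℂ K'] {N N' n : ℕ}
  {y : Fin (N + 1) → K} {y' : Fin (N' + 1) → K'}
  {x : Fin n → K} {E : Fin n → Derivation ℂ K K} {k : Place ℂ K → ℤ}
  {x' : Fin n → K'} {E' : Fin n → Derivation ℂ K' K'} {k' : Place ℂ K' → ℤ}

theorem reg_up' [Algebra K K'] {w : Place ℂ K'} {v : Place ℂ K} {e : ℕ} (h : Over w v e) {x : K}
    (hx : v.Reg x) : w.Reg (algebraMap K K' x) := by
  rcases hx with rfl | hx
  · left
    rw [map_zero]
  · right
    rw [h.2]
    positivity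

/-- the canonical divisor of a finite cover: the formula of Hurwitz -/
theorem can_pull_eq (hy : NormalModel y) (hy' : NormalModel y') (hn : Algebra.trdeg ℂ K = n)
    (hn' : Algebra.trdeg ℂ K' = n) (hx : IsTranscendenceBasis ℂ x) (h : Can y x E k)
    (h' : Can y' x' E' k') {π : K →ₐ[ℂ] K'} (hπ : FiniteMap π y y') :
    ∃ J : K', J ≠ 0 ∧ ∀ Q P e, IsPrimeDivisor y' Q → LiesOver π Q P e →
      k' Q + Q.ord J = ((e : ℤ) - 1) + e * k P := by
  have hess := hy.ess
  have hess' := hy'.ess
  let _ : Algebra K K' := π.toRingHom.toAlgebra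
  have hst : IsScalarTower ℂ K K' :=
    IsScalarTower.of_algebraMap_eq fun c => (π.commutes c).symm
  have hfd : FiniteDimensional K K' := finite_map hn hn'
  refine ⟨(Matrix.of fun i j => E' i (π (x j))).det, pull_ne hn h.self h'.frame,
    fun Q P e hQ hl => ?_⟩
  have hP : IsPrimeDivisor y P := (hπ Q P e hl).1 hQ
  have hov : Over Q P e := hl
  have hdQ : Divisorial n Q := hQ.divisorial hy' hn'
  have hPd : Divisorial n P := divisorial_down hov hdQ
  have hpl := pull_pluri (K' := K') x E 1 (frm x 1 1)
  have h4 : pull K' x E 1 (frm x 1 1) E' = (Matrix.of fun i j => E' i (π (x j))).det := by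
    unfold pull
    rw [frm_self h.self, map_one, mul_one, pow_one]
    rfl
  have hne : pull K' x E 1 (frm x 1 1) E' ≠ 0 := by
    rw [h4]
    exact pull_ne hn h.self h'.frame
  apply le_antisymm
  · -- the order on the coordinate vector fields
    obtain ⟨xP, EP, i0, hloc⟩ := exists_loc hn hPd
    choose dd hdd using fun i => exists_lift (L := K') hn (EP i)
    have hZ : IsTranscendenceBasis ℂ fun i => algebraMap K K' (xP i) := hloc.bas.algebraMap_comp
    have hdual := lift_dual hloc.dual hdd
    have e1 : pull K' x E 1 (frm x 1 1) dd = algebraMap K K' (frm x 1 1 EP) := by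
      rw [pull_change hn hx h.self hloc.bas hloc.dual (frm_pluri x 1 1) dd]
      unfold pull
      have e2 : (Matrix.of fun i j => dd i (algebraMap K K' (xP j))) = 1 := by
        ext i j
        rw [Matrix.of_apply, Matrix.one_apply]
        exact hdual i j
      rw [e2, Matrix.det_one, one_pow, one_mul]
    have hfne : frm x 1 1 EP ≠ 0 := by
      intro h0
      have h5 := pluri_coord hloc.bas hloc.dual (frm_pluri x 1 1) E
      rw [h0, mul_zero, frm_self h.self] at h5
      exact one_ne_zero h5
    have hord : (P.ord (frm x 1 1 EP) : ℚ) = k P := by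
      have h5 := ordEq_of (h.ord P hP 1 _ (frm_pluri x 1 1)) (by
        rw [frm_self h.self]
        exact one_ne_zero)
      rw [frm_self h.self, P.ord_one] at h5
      have h6 := (Pool.Agent.Y172.ordEq_iff hloc (frm_pluri x 1 1) hfne).1 h5
      rw [h6]
      simp
    have hord' : P.ord (frm x 1 1 EP) = k P := by exact_mod_cast hord
    have hc : ∀ F : Fin n → Derivation ℂ K' K', (∀ i, DerReg Q (F i)) →
        pull K' x E 1 (frm x 1 1) F = 0 ∨
          (((k' Q + Q.ord (Matrix.of fun i j => E' i (π (x j))).det : ℤ) : ℝ)) ≤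
            Q.ord (pull K' x E 1 (frm x 1 1) F) := by
      intro F hF
      have h5 := ordEq_of (h'.ord Q hQ 1 _ hpl) hne
      have h6 := h5.1 F hF
      rw [h4] at h6
      refine h6.imp_right fun h7 => ?_
      have h8 : (k' Q + Q.ord (Matrix.of fun i j => E' i (π (x j))).det : ℤ) ≤
          Q.ord (pull K' x E 1 (frm x 1 1) F) := by
        have h9 : (((k' Q + Q.ord (Matrix.of fun i j => E' i (π (x j))).det : ℤ) : ℚ)) ≤
            Q.ord (pull K' x E 1 (frm x 1 1) F) := by
          push_cast
          push_cast at h7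
          rw [one_mul] at h7
          exact h7
        exact_mod_cast h9
      exact_mod_cast h8
    have h1 := Pool.Agent.Y191.jac1 hn' hov hdQ dd _ hZ hdual (fun i z hz => by
      rw [hdd]
      exact reg_up' hov (hloc.pres i z hz)) (π := xP i0) hloc.unif i0 (by
      rw [hdual, if_pos rfl]
      exact one_ne_zero) (by
      rw [hdual, if_pos rfl, Q.ord_one]) hpl hc
    rw [e1] at h1
    have h2 := h1.resolve_left ((map_ne_zero (algebraMap K K')).2 hfne)
    have h3 : Q.ord (algebraMap K K' (frm x 1 1 EP)) = e * k P := by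
      rw [hov.2, hord']
    rw [h3] at h2
    have h5 : ((k' Q + Q.ord (Matrix.of fun i j => E' i (π (x j))).det : ℤ) : ℝ) ≤
        ((((e : ℤ) - 1) + e * k P : ℤ) : ℝ) := by
      push_cast at h2 ⊢
      linarith
    exact_mod_cast h5
  · have h1 : OrdGe P (frm x 1 1) (k P) := (h.ord _ hP 1 _ (frm_pluri x 1 1) _).2 (Or.inr (by
      rw [frm_self h.self, P.ord_one]
      simp))
    have h2 : OrdGe Q (pull K' x E 1 (frm x 1 1)) ((((e : ℤ) - 1) + e * k P : ℤ) : ℚ) := by
      intro D hD
      have h4 := pull_ord (K' := K') hn hx h.self hov hPd (frm_pluri x 1 1) h1 hD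
      refine h4.imp_right fun h5 => ?_
      have h6 : (((e : ℤ) - 1) + e * k P : ℤ) ≤ Q.ord (pull K' x E 1 (frm x 1 1) D) := by
        have h7 : ((1 : ℕ) : ℤ) * ((e : ℤ) - 1) + e * k P ≤
          Q.ord (pull K' x E 1 (frm x 1 1) D) := h5
        simpa using h7
      exact_mod_cast h6
    have h3 := (h'.ord Q hQ 1 _ hpl _).1 h2
    rw [h4] at h3
    have h5 := h3.resolve_left (pull_ne hn h.self h'.frame)
    rw [Nat.cast_one, one_mul] at h5
    exact_mod_cast h5

end

end Pool.Agent.U201.MR
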