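import Pool.Agent.U201.MR.Hur
import Pool.Agent.R887.GapC

/-!
Pairs on the finite images of varieties with an abelian group of pseudo-automorphisms of maximal
rank.
-/

set_option autoImplicit false
set_option linter.unusedSectionVars false
set_option linter.overlappingInstances false

open FF Module Pool.Agent.W602.GT Pool.Agent.Y172 Pool.Agent.R887 Pool.Agent.W619.PQ
open Pool.Agent.N110 Pool.Agent.N110.PA Pool.Agent.N110.NV Pool.Agent.N492.PA
open Pool.Agent.N110.CC Pool.Agent.Y191 Pool.Agent.W603.LV MvPolynomial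
open Pool.Agent.N165.KM (interior_add_mem interior_smul_mem)
open Filter Topology

namespace Pool.Agent.U201.MR

section

variable {K : Type} [Field K] [Algebra ℂ K] {N n : ℕ} {y : Fin (N + 1) → K}

/-- a function without poles on a normal projective variety has no zeros -/
theorem unit_of_reg (hy : NormalModel y) (hn : Algebra.trdeg ℂ K = n) (hn0 : 0 < n) {f : K}
    (hf0 : f ≠ 0) (hf : ∀ P, IsPrimeDivisor y P → 0 ≤ P.ord f) : ∀ P : Place ℂ K, P.ord f = 0 := by
  classical
  have hess := hy.ess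
  have hall : ∀ Q : Place ℂ K, 0 ≤ Q.ord f := fun Q =>
    reg_of_through hy hf0 fun P hP _ => hf P hP
  have hconst : ∃ c : ℂ, algebraMap ℂ K c = f := by
    by_contra hcon
    have htr0 : Transcendental ℂ f := by
      intro halg
      have hint : IsIntegral ℂ f := halg.isIntegral
      have h1 := IsAlgClosed.degree_eq_one_of_irreducible ℂ (minpoly.irreducible hint)
      obtain ⟨c, hc⟩ := minpoly.mem_range_of_degree_eq_one ℂ f h1
      exact hcon ⟨c, hc⟩
    have hind : AlgebraicIndependent ℂ (fun _ : Fin 1 => f) := by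
      rw [algebraicIndependent_unique_type_iff]
      exact htr0
    obtain ⟨u, -, hd⟩ := exists_complete hy hn (j := 1) (by omega) hind
    have hcard : Nat.card (Fin (n - 1) ⊕ Fin 1) = n := by
      rw [Nat.card_eq_fintype_card, Fintype.card_sum, Fintype.card_fin, Fintype.card_fin]
      omega
    have hbas := basis_of_dg (k := ℂ) (w := Sum.elim u fun _ : Fin 1 => f) (by rw [hn, hcard])
      hd.ne'
    have htr : Transcendental (IntermediateField.adjoin ℂ (Set.range u)) f := by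
      have h1 := transc_of_basis (k := ℂ) (K := K) hbas.1 (s := Set.range Sum.inl)
        (i := Sum.inr 0) (by simp)
      have h2 : (Sum.elim u fun _ : Fin 1 => f) '' Set.range Sum.inl = Set.range u := by
        rw [← Set.range_comp]
        rfl
      rw [h2] at h1
      exact h1
    have hd2 : 0 < degreeOver u (fun _ : Fin 1 => f) := by
      rw [degreeOver_eq]
      exact hd
    rw [degOver_simple] at hd2
    have hfin : FiniteDimensional
        (IntermediateField.adjoin (IntermediateField.adjoin ℂ (Set.range u)) {f}) K :=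
      FiniteDimensional.of_finrank_pos hd2
    have : IsFF (IntermediateField.adjoin ℂ (Set.range u)) K := IsFF.of_finite htr hfin
    obtain ⟨S, hS, hS2⟩ := poles (k := IntermediateField.adjoin ℂ (Set.range u)) (K := K) htr
    obtain ⟨w, hw⟩ : S.Nonempty := by
      rw [Finset.nonempty_iff_ne_empty]
      rintro rfl
      rw [Finset.sum_empty] at hS2
      omega
    have hw2 := (hS w).1 hw
    have h3 := hall (dnp w)
    have h4 : (dnp w).ord f = w.ord f := rfl
    omega
  obtain ⟨c, rfl⟩ := hconst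
  have hc : c ≠ 0 := fun h0 => hf0 (by rw [h0, map_zero])
  exact fun P => P.ord_const hc

/-- an effective divisor which is numerically trivial is zero, on varieties of irregularity zero -/
theorem eff_zero (hy : NormalModel y) (hn : Algebra.trdeg ℂ K = n) (hn0 : 0 < n)
    (hq : IrregularityZero y) {R : Place ℂ K → ℚ} (hR : Effective y R) (h1 : PsefD y R)
    (h2 : PsefD y (fun P => -R P)) : ∀ P, IsPrimeDivisor y P → R P = 0 := by
  obtain ⟨m, hm, f, hf, h3⟩ := torsion hy hq hR.2 h1 h2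
  have hm' : (0 : ℚ) < m := by exact_mod_cast hm
  have h4 := unit_of_reg hy hn hn0 hf fun P hP => by
    have h5 : (0 : ℚ) ≤ P.ord f := by
      rw [h3 P hP]
      exact mul_nonneg hm'.le (hR.1 P hP)
    exact_mod_cast h5
  intro P hP
  have h5 := h3 P hP
  rw [h4 P] at h5
  simpa [hm'.ne'] using h5.symm

end

section

variable {K K' : Type} [Field K] [Algebra ℂ K] [Field K'] [Algebra ℂ K'] {N N' n r : ℕ}
  {y : Fin (N + 1) → K} {y' : Fin (N' + 1) → K'}

/-- a divisor is torsion if its pull back is -/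
theorem torsion_down (hn : Algebra.trdeg ℂ K = n) (hy' : NormalModel y')
    (hn' : Algebra.trdeg ℂ K' = n) {π : K →ₐ[ℂ] K'} (hπ : FiniteMap π y y')
    {L : Place ℂ K → ℚ} {L' : Place ℂ K' → ℚ}
    (hrel : ∀ Q P e, IsPrimeDivisor y' Q → LiesOver π Q P e → L' Q = e * L P)
    (h : ∃ m : ℕ, 1 ≤ m ∧ ∃ f : K', f ≠ 0 ∧ ∀ Q, IsPrimeDivisor y' Q → (Q.ord f : ℚ) = m * L' Q) :
    ∃ m : ℕ, 1 ≤ m ∧ ∃ f : K, f ≠ 0 ∧ ∀ P, IsPrimeDivisor y P → (P.ord f : ℚ) = m * L P := by
  let _ : Algebra K K' := π.toRingHom.toAlgebra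
  have hst : IsScalarTower ℂ K K' := IsScalarTower.of_algebraMap_eq fun c => (π.commutes c).symm
  have hess : Algebra.EssFiniteType ℂ K' := hy'.ess
  have hfd : FiniteDimensional K K' := finite_map hn hn'
  obtain ⟨m, hm, f, hf, h1⟩ := h
  have hd : 0 < Module.finrank K K' := Module.finrank_pos
  refine ⟨Module.finrank K K' * m, Nat.mul_pos hd hm, Algebra.norm K f,
    Algebra.norm_ne_zero_iff.2 hf, fun P hP => ?_⟩
  have key : ∀ Q e, Over Q P e → (Q.ord f : ℚ) = e * (m * L P) := fun Q e hQ => by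
    have hl : LiesOver π Q P e := ⟨hQ.1, hQ.2⟩
    have hQp : IsPrimeDivisor y' Q := (hπ Q P e hl).2 hP
    rw [h1 Q hQp, hrel Q P e hQp hl]
    ring
  have h2 := Pool.Agent.N832.CC.ord_norm P hf (a := m * L P) fun Q e hQ => (key Q e hQ).ge
  have h3 := Pool.Agent.N832.CC.ord_norm P (inv_ne_zero hf) (a := -(m * L P)) fun Q e hQ => by
    rw [Q.ord_inv]
    push_cast
    rw [key Q e hQ]
    linarith
  have h4 : Algebra.norm K f * Algebra.norm K f⁻¹ = 1 := by
    rw [← map_mul, mul_inv_cancel₀ hf, map_one]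
  have h5 : P.ord (Algebra.norm K f) + P.ord (Algebra.norm K f⁻¹) = 0 := by
    rw [← P.ord_mul (Algebra.norm_ne_zero_iff.2 hf) (Algebra.norm_ne_zero_iff.2 (inv_ne_zero hf)),
      h4, P.ord_one]
  have h6 : (P.ord (Algebra.norm K f) : ℚ) + P.ord (Algebra.norm K f⁻¹) = 0 := by exact_mod_cast h5
  push_cast
  linarith

/-- **Pairs on finite images.** -/
theorem images (hy : NormalModel y) (hy' : NormalModel y') (hn : Algebra.trdeg ℂ K = n)
    (hn' : Algebra.trdeg ℂ K' = n) (hn0 : 0 < n) (hr : 0 < r)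
    {c' : Place ℂ K' → Fin (r + 1) → ℤ} (hc' : PicardBasis y' c')
    {φ : (Fin r → ℤ) → (K' ≃ₐ[ℂ] K')} (hφ : ∀ u v, φ (u + v) = φ u * φ v)
    (hps : ∀ v, PseudoAut (φ v) y') (hent : ∀ v, v ≠ 0 → 1 < dynDegree (φ v) y' n 1)
    {π : K →ₐ[ℂ] K'} (hπ : FiniteMap π y y') {Δ : Place ℂ K → ℚ}
    (hΔ : {P | IsPrimeDivisor y P ∧ Δ P ≠ 0}.Finite) :
    (LogPsef y n Δ → (LogAntiPsef y n Δ ∧
      (IrregularityZero y ∨ IrregularityZero y' → LogTorsion y n Δ)) ∨ LogBig y n Δ) ∧
    ((∀ Q P e, IsPrimeDivisor y' Q → LiesOver π Q P e → (e : ℚ) * (1 - Δ P) ≤ 1) →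
      LogPsef y n Δ ∧
      ((∀ Q P e, IsPrimeDivisor y' Q → LiesOver π Q P e → (e : ℚ) * (1 - Δ P) = 1) →
        LogAntiPsef y n Δ) ∧
      (IrregularityZero y' →
        ((∀ Q P e, IsPrimeDivisor y' Q → LiesOver π Q P e → (e : ℚ) * (1 - Δ P) = 1) →
          LogTorsion y n Δ) ∧
        ((∃ Q P e, IsPrimeDivisor y' Q ∧ LiesOver π Q P e ∧ (e : ℚ) * (1 - Δ P) < 1) →
          LogBig y n Δ))) := by
  have hess := hy.ess
  have hess' := hy'.ess
  obtain ⟨x, E, hx, hE⟩ := exists_crd hn (k := ℂ) (K := K)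
  have hfr : IsFrame E := fun F => ⟨fun j => F (x j),
    (Pool.Agent.W73.PG.PULL.expand x hx E hE F).symm⟩
  obtain ⟨k, hkf, hk⟩ := exists_ordc hy hn hx hE
  have h : Can y x E k := ⟨hfr, hE, hkf, hk⟩
  obtain ⟨x', E', k', h'⟩ := exists_can hy' hn'
  obtain ⟨J, hJ0, hJ⟩ := can_pull_eq hy hy' hn hn' hx h h' hπ
  have hk0 := can_zero hy' hn' hn0 hr hc' hφ hps hent h'
  obtain ⟨L', hL', hrel, h1⟩ := Pool.Agent.N340.CC.leafPSUP K K' N N' n y y' hy hy' hn hn' hn0 π hπ
    (fun P => (k P : ℚ) + Δ P) (h.finD hΔ)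
  have hL'n : {P | IsPrimeDivisor y' P ∧ -L' P ≠ 0}.Finite := fin_neg hL'
  let _ : Algebra K K' := π.toRingHom.toAlgebra
  have hst : IsScalarTower ℂ K K' :=
    IsScalarTower.of_algebraMap_eq fun c => (π.commutes c).symm
  have hfd : FiniteDimensional K K' := finite_map hn hn'
  have hov : ∀ Q : Place ℂ K', LiesOver π Q (bel K Q) (ram K Q) := fun Q => over_bel K Q
  have hreln : ∀ Q P e, IsPrimeDivisor y' Q → LiesOver π Q P e →
      -L' Q = e * -((k P : ℚ) + Δ P) := fun Q P e hQ hl => by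
    rw [hrel Q P e hQ hl]
    ring
  -- numerically trivial pull backs
  have hdown : cls y' (cQ c') L' = 0 → PsefD y (fun P => -((k P : ℚ) + Δ P)) := fun h0 =>
    Pool.Agent.N701.CC.leafPSDN Pool.Agent.N832.CC.leafNORM Pool.Agent.N252.CC.leafPUSH
      K K' N N' n y y' hy hy' hn hn' hn0 π hπ _ (fun Q => -L' Q) hreln
      (psef_of_zero hc'.numClasses hL'n (by rw [cls_neg, h0, neg_zero]))
  have htor : IrregularityZero y' → cls y' (cQ c') L' = 0 → LogTorsion y n Δ := fun hq h0 =>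
    h.torsion (torsion_down hn hy' hn' hπ hrel (torsion hy' hq hL'
      (psef_of_zero hc'.numClasses hL' h0)
      (psef_of_zero hc'.numClasses hL'n (by rw [cls_neg, h0, neg_zero]))))
  have hbig : toR (cls y' (cQ c') L') ∈ CE y' c' → cls y' (cQ c') L' ≠ 0 → LogBig y n Δ :=
    fun hce h0 => h.big (Pool.Agent.N8.CC.leafBGDN Pool.Agent.N832.CC.leafNORM
      Pool.Agent.N340.CC.leafPSUP K K' N N' n y y' hy hy' hn hn' hn0 π hπ _ L' hrel
      (Pool.Agent.N619.CC.leafBIG K' N' (r + 1) y' hy' c' hc' L' hL'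
        (rat_int hy' hn' hn0 hr hc' hφ hps hent hce h0)))
  refine ⟨fun hpsef => ?_, fun hbr => ?_⟩
  · have hce : toR (cls y' (cQ c') L') ∈ CE y' c' := Pool.Agent.N618.CC.leafPSCL K' N' (r + 1) y'
      hy' (cQ c') hc'.numClasses.principal L' hL' (h1 (h.psef hpsef))
    by_cases h0 : cls y' (cQ c') L' = 0
    · left
      refine ⟨h.anti (hdown h0), ?_⟩
      rintro (hq | hq)
      · exact h.torsion (Pool.Agent.N110.CC.torsion hy hq (h.finD hΔ) (h.psef hpsef) (hdown h0))
      · exact htor hq h0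
    · exact Or.inr (hbig hce h0)
  · have hJf : Fin0 y' (fun Q => (Q.ord J : ℚ)) := fin_cast (finite_ord hy' hJ0)
    have hk'f : Fin0 y' (fun Q => (k' Q : ℚ)) := fin_cast h'.fin
    have hval : ∀ Q P e, IsPrimeDivisor y' Q → LiesOver π Q P e →
        L' Q - ((k' Q : ℚ) + (Q.ord J : ℚ)) = 1 - e * (1 - Δ P) := by
      intro Q P e hQ hl
      have h2 := hJ Q P e hQ hl
      have h3 : (k' Q : ℚ) + (Q.ord J : ℚ) = ((e : ℚ) - 1) + e * k P := by exact_mod_cast h2
      rw [h3, hrel Q P e hQ hl]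
      ring
    have hR : Effective y' (fun Q => L' Q - ((k' Q : ℚ) + (Q.ord J : ℚ))) := by
      refine ⟨fun Q hQ => ?_, Fin0.sub hL' (Fin0.add hk'f hJf)⟩
      beta_reduce
      rw [hval Q _ _ hQ (hov Q)]
      have h3 := hbr Q _ _ hQ (hov Q)
      linarith
    have hcls : cls y' (cQ c') (fun Q => L' Q - ((k' Q : ℚ) + (Q.ord J : ℚ))) =
        cls y' (cQ c') L' := by
      have h2 : cls y' (cQ c') (fun Q => (Q.ord J : ℚ)) = 0 := hc'.numClasses.principal J hJ0
      rw [cls_sub hL' (Fin0.add hk'f hJf), cls_add hk'f hJf, hk0, h2, zero_add, sub_zero]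
    have hce : toR (cls y' (cQ c') L') ∈ CE y' c' := by
      rw [← hcls]
      exact subset_closure (eff_mem hR)
    have hzero : (∀ Q P e, IsPrimeDivisor y' Q → LiesOver π Q P e → (e : ℚ) * (1 - Δ P) = 1) →
        cls y' (cQ c') L' = 0 := by
      intro heq
      rw [← hcls, ← cls_zero (y := y') (c := cQ c')]
      refine cls_congr fun Q hQ => ?_
      rw [hval Q _ _ hQ (hov Q), heq Q _ _ hQ (hov Q), sub_self]
    refine ⟨h.logPsef ?_, fun heq => h.anti (hdown (hzero heq)), fun hq =>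
      ⟨fun heq => htor hq (hzero heq), ?_⟩⟩
    · exact Pool.Agent.N701.CC.leafPSDN Pool.Agent.N832.CC.leafNORM Pool.Agent.N252.CC.leafPUSH
        K K' N N' n y y' hy hy' hn hn' hn0 π hπ _ L' hrel (psef_of_class hy' hc' hL' hce)
    · rintro ⟨Q, P, e, hQ, hl, hlt⟩
      refine hbig hce fun h0 => ?_
      have h2 : cls y' (cQ c') (fun Q => L' Q - ((k' Q : ℚ) + (Q.ord J : ℚ))) = 0 := by
        rw [hcls, h0]
      have h3 := eff_zero hy' hn' hn0 hq hR (psef_of_zero hc'.numClasses hR.2 h2)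
        (psef_of_zero hc'.numClasses (fin_neg hR.2) (by rw [cls_neg, h2, neg_zero])) Q hQ
      beta_reduce at h3
      rw [hval Q P e hQ hl] at h3
      linarith

end

section

variable {K : Type} [Field K] [Algebra ℂ K] {N n r : ℕ} {y : Fin (N + 1) → K}
  {c : Place ℂ K → Fin (r + 1) → ℤ}

/-- **All divisors `Δ`**: if `K_X + Δ` is pseudo-effective then it is torsion or ample -/
theorem ample_all (hy : NormalModel y) (hn : Algebra.trdeg ℂ K = n) (hn0 : 0 < n) (hr : 0 < r)
    (hc : PicardBasis y c) {φ : (Fin r → ℤ) → (K ≃ₐ[ℂ] K)}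
    (hφ : ∀ u v, φ (u + v) = φ u * φ v)
    (hent : ∀ v, v ≠ 0 → 1 < dynDegree (φ v) y n 1) (hq : IrregularityZero y)
    (haut : ∀ v, IsAut (φ v) y) {Δ : Place ℂ K → ℚ}
    (hΔ : {P | IsPrimeDivisor y P ∧ Δ P ≠ 0}.Finite) (hpsef : LogPsef y n Δ) :
    LogTorsion y n Δ ∨ LogAmple y n Δ := by
  obtain ⟨x, E, k, h⟩ := exists_can hy hn
  have hps : ∀ v, PseudoAut (φ v) y := fun v =>
    (Pool.Agent.N265.CC.leafFREE K N n y hy (φ v) (haut v)).1
  have hpc := pc_eff hc.numClasses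
  have hce : toR (cls y (cQ c) (fun P => (k P : ℚ) + Δ P)) ∈ CE y c :=
    Pool.Agent.N618.CC.leafPSCL K N (r + 1) y hy (cQ c) hc.numClasses.principal _ (h.finD hΔ)
      (h.psef hpsef)
  by_cases h0 : cls y (cQ c) (fun P => (k P : ℚ) + Δ P) = 0
  · exact Or.inl (h.torsion (torsion hy hq (h.finD hΔ) (h.psef hpsef)
      (psef_of_zero hc.numClasses (fin_neg (h.finD hΔ)) (by rw [cls_neg, h0, neg_zero]))))
  · refine Or.inr (h.ample fun i hi => ?_)
    obtain ⟨Hy, hHe, hH⟩ := exists_hyp hy hi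
    refine ⟨Hy, hH, ?_⟩
    have hint := rat_int hy hn hn0 hr hc hφ hps hent hce h0
    obtain ⟨t, ht, h1⟩ : ∃ t : ℕ, 1 ≤ t ∧
        toR (cls y (cQ c) (fun P => (t : ℚ) * ((k P : ℚ) + Δ P) - Hy P)) ∈ CE y c := by
      have hlim : Tendsto (fun t : ℕ => toR (cls y (cQ c) (fun P => (k P : ℚ) + Δ P)) -
          (1 / ((t : ℝ) + 1)) • toR (cls y (cQ c) Hy)) atTop
          (𝓝 (toR (cls y (cQ c) (fun P => (k P : ℚ) + Δ P)) -
            (0 : ℝ) • toR (cls y (cQ c) Hy))) :=
        tendsto_const_nhds.sub (tendsto_one_div_add_atTop_nhds_zero_nat.smul_const _)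
      rw [zero_smul, sub_zero] at hlim
      obtain ⟨t, ht⟩ := (hlim.eventually (isOpen_interior.mem_nhds hint)).exists
      refine ⟨t + 1, by omega, ?_⟩
      have h2 := hpc.smul ((t : ℝ) + 1) (by positivity) _ (interior_subset ht)
      rw [smul_sub, smul_smul, mul_one_div_cancel (by positivity), one_smul] at h2
      rw [cls_sub (Fin0.smul (h.finD hΔ) _) hHe.2, cls_smul, toR_sub, toR_smul]
      push_cast
      exact h2
    exact ⟨t, ht, semiample_q hy hn hn0 hr hc hφ haut hent hq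
      ((Fin0.smul (h.finD hΔ) _).sub hHe.2)
      (psef_of_class hy hc ((Fin0.smul (h.finD hΔ) _).sub hHe.2) h1)⟩

end

end Pool.Agent.U201.MR
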